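import Pool.Agent.N688.FB.Loc
import Pool.Agent.Results.MP_967f73_nt.CommonSummands

set_option autoImplicit false
set_option maxHeartbeats 4000000

/-!
# Patterns of consecutive primes as common summands among any `K` shifts, uniformly in the shifts
-/

open Filter Finset Topology

namespace Pool.Agent.N688.GC

open Pool.Agent.Results.MP_967f73_nt.CommonSummands (LocallyPossible Consecutive count exceptions)

/-- no local obstruction for the vector `N` -/
def Loc0 {r : ℕ} (N : Fin r → ℕ) : Prop :=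
  ∀ l : ℕ, l.Prime → ∃ n : ℤ, ¬ (l : ℤ) ∣ n ∧ ∀ j, ¬ (l : ℤ) ∣ (N j : ℤ) - n

/-- the pattern `y` of consecutive primes `p + y_i`, with all `M j - p` prime -/
def PatAt {r k : ℕ} (M : Fin r → ℕ) (y : Fin k → ℤ) (p : ℕ) : Prop :=
  (∀ i, ((p : ℤ) + y i).toNat.Prime) ∧
  (∀ z : ℤ, (∃ i, (p : ℤ) + y i ≤ z) → (∃ i, z ≤ (p : ℤ) + y i) → z.toNat.Prime → ∃ i, z = p + y i) ∧
  ∀ j, p < M j ∧ (M j - p).Prime

/-- there are at least `x / (log x) ^ D` such `p ≤ 2 x` -/
def Many {r k : ℕ} (D x : ℕ) (M : Fin r → ℕ) (y : Fin k → ℤ) : Prop :=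
  (x : ℝ) / Real.log x ^ D ≤ (({p : ℕ | p ≤ 2 * x ∧ PatAt M y p}.ncard : ℕ) : ℝ)

/-- avoiding few classes -/
theorem avoid (l : ℕ) (S : Finset ℤ) (h : S.card < l) : ∃ n : ℤ, ∀ a ∈ S, ¬ (l : ℤ) ∣ n - a := by
  by_contra hcon
  push Not at hcon
  have hl : 0 < l := by omega
  have h1 : Finset.Ico (0 : ℤ) l ⊆ S.image (fun a => a % l) := by
    intro n hn
    obtain ⟨a, ha, hd⟩ := hcon n
    rw [mem_image]
    refine ⟨a, ha, ?_⟩
    have h2 : a % l = n % l := (Int.modEq_iff_dvd).2 hd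
    rw [h2]
    rw [mem_Ico] at hn
    exact Int.emod_eq_of_lt hn.1 hn.2
  have h2 := (card_le_card h1).trans card_image_le
  rw [Int.card_Ico, sub_zero, Int.toNat_natCast] at h2
  omega

/-- **no local obstruction** for the multiples of `w = (r + 1)!` in one class -/
theorem loc_of {r K : ℕ} (N : Fin r → ℕ) (hN : Loc0 N) (A : Finset ℕ) (hA : A.card ≤ K)
    (hw : ∀ a ∈ A, (r + 1).factorial ∣ a)
    (hc : ∀ a ∈ A, ∀ b ∈ A, ∀ l : ℕ, l.Prime → l ≤ K + r + 1 → (l : ℤ) ∣ (a : ℤ) - b) :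
    LocallyPossible A N := by
  classical
  intro l hl
  by_cases h1 : l ≤ r + 1
  · obtain ⟨n, hn1, hn2⟩ := hN l hl
    refine ⟨n, fun a ha hd => hn1 ?_, hn2⟩
    have h2 : l ∣ a := ((Nat.dvd_factorial hl.pos h1).trans (hw a ha))
    have h3 : (l : ℤ) ∣ (a : ℤ) := by exact_mod_cast h2
    have h4 := dvd_sub hd h3
    rwa [add_sub_cancel_right] at h4
  · push Not at h1
    have key : ∀ S : Finset ℤ, S.card + r < l → ∃ n : ℤ, (∀ a ∈ S, ¬ (l : ℤ) ∣ n + a) ∧
        ∀ j, ¬ (l : ℤ) ∣ (N j : ℤ) - n := by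
      intro S hS
      obtain ⟨n, hn⟩ := avoid l (S.image (fun a => -a) ∪ univ.image (fun j => (N j : ℤ))) (by
        refine lt_of_le_of_lt ((card_union_le _ _).trans (add_le_add card_image_le card_image_le)) ?_
        rw [card_univ, Fintype.card_fin]
        exact hS)
      refine ⟨n, fun a ha hd => hn (-a) (mem_union_left _ (mem_image_of_mem _ ha)) ?_,
        fun j hd => hn (N j) (mem_union_right _ (mem_image_of_mem _ (mem_univ j))) ?_⟩
      · rwa [sub_neg_eq_add]
      · rw [← neg_sub]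
        exact (dvd_neg).2 hd
    by_cases h2 : l ≤ K + r + 1
    · rcases A.eq_empty_or_nonempty with rfl | ⟨a₀, ha₀⟩
      · obtain ⟨n, -, hn⟩ := key ∅ (by rw [card_empty]; omega)
        exact ⟨n, fun a ha => absurd ha (notMem_empty a), hn⟩
      · obtain ⟨n, hn1, hn2⟩ := key {(a₀ : ℤ)} (by rw [card_singleton]; omega)
        refine ⟨n, fun a ha hd => hn1 a₀ (mem_singleton_self _) ?_, hn2⟩
        have h3 := hc a₀ ha₀ a ha l hl h2
        have h4 := dvd_add hd h3
        have e : n + (a : ℤ) + ((a₀ : ℤ) - a) = n + a₀ := by ring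
        rwa [e] at h4
    · push Not at h2
      obtain ⟨n, hn1, hn2⟩ := key (A.image (fun a : ℕ => (a : ℤ))) (by
        have := card_image_le (s := A) (f := fun a : ℕ => (a : ℤ))
        omega)
      refine ⟨n, fun a ha hd => hn1 a (mem_image_of_mem _ ha) hd, hn2⟩


/-- `Many` for the pattern of `m` consecutive primes found among the shifts -/
theorem many_of {r k D x w : ℕ} (hw : 0 < w) (N : Fin r → ℕ) (H' : Finset ℕ) (hc : H'.card = k)
    (hdiv : ∀ a ∈ H', w ∣ a) (hx : ∀ a ∈ H', a ≤ x)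
    (hcount : (x : ℝ) / Real.log x ^ D ≤ (count H' N x : ℝ)) (hk : 0 < k) :
    Many D x (fun j => N j + H'.orderEmbOfFin hc ⟨0, hk⟩)
      (fun i => ((H'.orderEmbOfFin hc i : ℕ) : ℤ) - ((H'.orderEmbOfFin hc ⟨0, hk⟩ : ℕ) : ℤ)) := by
  classical
  unfold Many
  refine hcount.trans ?_
  unfold count
  rw [Nat.cast_le]
  set e := H'.orderEmbOfFin hc with he
  have hmem : ∀ i, e i ∈ H' := fun i => H'.orderEmbOfFin_mem hc i
  refine Set.ncard_le_ncard_of_injOn (fun n : ℕ => n + e ⟨0, hk⟩) ?_ ?_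
    ((Set.finite_Iic (2 * x)).subset fun p hp => hp.1)
  · rintro n ⟨⟨hn1, hn2⟩, ⟨hn3, hn4⟩, hn5⟩
    refine ⟨?_, ?_, ?_, ?_⟩
    · have := hx _ (hmem ⟨0, hk⟩)
      show n + e ⟨0, hk⟩ ≤ 2 * x
      omega
    · intro i
      have e1 : (((n + e ⟨0, hk⟩ : ℕ) : ℤ) + (((e i : ℕ) : ℤ) - ((e ⟨0, hk⟩ : ℕ) : ℤ))) =
          ((n + e i : ℕ) : ℤ) := by
        push_cast
        ring
      simp only
      rw [e1, Int.toNat_natCast]
      exact hn3 _ (hmem i)
    · rintro z ⟨i, hi⟩ ⟨i', hi'⟩ hz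
      have e1 : ∀ i, (((n + e ⟨0, hk⟩ : ℕ) : ℤ) + (((e i : ℕ) : ℤ) - ((e ⟨0, hk⟩ : ℕ) : ℤ))) =
          ((n + e i : ℕ) : ℤ) := by
        intro i
        push_cast
        ring
      simp only [e1] at hi hi' ⊢
      obtain ⟨z', hz'⟩ : ∃ z' : ℕ, z = n + z' := ⟨(z - n).toNat, by
        rw [Int.toNat_of_nonneg]
        · ring
        · push_cast at hi
          linarith [Int.natCast_nonneg (e i)]⟩
      have h1 : z.toNat = n + z' := by
        rw [hz']
        exact_mod_cast Int.toNat_natCast (n + z')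
      rw [h1] at hz
      have h2 : z' ∈ H' := by
        apply hn4 z' ⟨e i, hmem i, ?_⟩ ⟨e i', hmem i', ?_⟩ hz
        · rw [hz'] at hi
          push_cast at hi
          have : ((e i : ℕ) : ℤ) ≤ z' := by linarith
          exact_mod_cast this
        · rw [hz'] at hi'
          push_cast at hi'
          have : (z' : ℤ) ≤ (e i' : ℕ) := by linarith
          exact_mod_cast this
      have h3 : z' ∈ Set.range e := by
        rw [he, Finset.range_orderEmbOfFin]
        exact h2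
      obtain ⟨i'', hi''⟩ := h3
      refine ⟨i'', ?_⟩
      rw [hz', hi'']
      push_cast
      ring
    · intro j
      obtain ⟨h1, h2⟩ := hn5 j
      simp only
      refine ⟨by omega, ?_⟩
      have e2 : N j + e ⟨0, hk⟩ - (n + e ⟨0, hk⟩) = N j - n := by omega
      rw [e2]
      exact h2
  · intro a _ b _ hab
    exact Nat.add_right_cancel hab

/-- the vectors for which some `K₂` shifts contain no pattern -/
def BadG (r k w H D K₂ c x : ℕ) : Set (Fin r → ℕ) :=
  {N | (∀ j, 2 ≤ N j ∧ N j ≤ c * x) ∧ Loc0 N ∧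
    ¬ ∀ F : Finset ℤ, F ⊆ Ico 0 (H : ℤ) → F.card = K₂ →
      ∃ y : Fin (k + 2) → ℤ, StrictMono y ∧ (∀ i, y i ∈ F) ∧
        Many D x (fun j => N j + w * (y 0).toNat) (fun i => w * (y i - y 0))}

theorem hit (r k : ℕ) : ∃ K₂ : ℕ, ∀ H : ℕ, ∃ D : ℕ, ∀ c : ℕ,
    Tendsto (fun x : ℕ => ((BadG r k (r + 1).factorial H D K₂ c x).ncard : ℝ) / (x : ℝ) ^ r)
      atTop (𝓝 0) := by
  classical
  obtain ⟨K, hK⟩ := Pool.Agent.Results.MP_967f73_nt.CommonSummands.result (k + 2)
  set w : ℕ := (r + 1).factorial with hw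
  have hw0 : 0 < w := Nat.factorial_pos _
  set L : ℕ := (K + r + 1).factorial with hL
  have hL0 : 0 < L := Nat.factorial_pos _
  refine ⟨L * K, fun H => ?_⟩
  set AA : Finset (Finset ℕ) := ((Finset.range H).image (fun f => w * f)).powersetCard K with hAA
  have hAAc : ∀ A ∈ AA, K ≤ A.card := fun A hA => (mem_powersetCard.1 hA).2.ge
  have h1 : ∀ A : Finset ℕ, K ≤ A.card → ∃ D : ℕ, ∀ κ : ℕ,
    Tendsto (fun x : ℕ => ((exceptions A (k + 2) r D κ x).ncard : ℝ) / (x : ℝ) ^ r) atTop (𝓝 0) :=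
    fun A hA => hK r A hA
  choose! Df hDf using h1
  refine ⟨AA.sup Df, fun c => ?_⟩
  have hsum : Tendsto (fun x : ℕ => ∑ A ∈ AA,
      ((exceptions A (k + 2) r (Df A) c x).ncard : ℝ) / (x : ℝ) ^ r) atTop (𝓝 0) := by
    have := tendsto_finsetSum AA (fun A hA => hDf A (hAAc A hA) c)
    simpa using this
  have hlog : ∀ᶠ x : ℕ in atTop, 1 ≤ Real.log x :=
    (Real.tendsto_log_atTop.comp tendsto_natCast_atTop_atTop).eventually_ge_atTop 1
  refine tendsto_of_tendsto_of_tendsto_of_le_of_le' tendsto_const_nhds hsum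
    (Eventually.of_forall fun x => by positivity) ?_
  filter_upwards [hlog, eventually_ge_atTop (w * H)] with x hlogx hxH
  rw [← Finset.sum_div]
  apply div_le_div_of_nonneg_right _ (by positivity)
  -- the bad vectors are exceptional for some set
  have hsub : BadG r k w H (AA.sup Df) (L * K) c x ⊆
      ⋃ A ∈ AA, exceptions A (k + 2) r (Df A) c x := by
    rintro N ⟨hN1, hN2, hN3⟩
    by_contra hcon
    rw [Set.mem_iUnion₂] at hcon
    push Not at hcon
    apply hN3
    intro F hF hFK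
    have hF0 : ∀ y ∈ F, 0 ≤ y ∧ y < H := fun y hy => mem_Ico.1 (hF hy)
    obtain ⟨cl, -, hcl⟩ := Finset.exists_le_card_fiber_of_mul_le_card_of_maps_to
      (s := F) (t := Ico (0 : ℤ) L) (f := fun y => y % L) (n := K) (fun y _ => by
        rw [mem_Ico]
        exact ⟨Int.emod_nonneg _ (by exact_mod_cast hL0.ne'),
          Int.emod_lt_of_pos _ (by exact_mod_cast hL0)⟩)
      ⟨0, by rw [mem_Ico]; exact ⟨le_rfl, by exact_mod_cast hL0⟩⟩ (by
        rw [Int.card_Ico, sub_zero, Int.toNat_natCast, hFK])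
    obtain ⟨F', hF', hF'c⟩ := exists_subset_card_eq hcl
    have hF'F : ∀ y ∈ F', y ∈ F ∧ y % L = cl := fun y hy => mem_filter.1 (hF' hy)
    set A : Finset ℕ := F'.image (fun y => w * y.toNat) with hA
    have hAc : A.card = K := by
      rw [hA, card_image_of_injOn, hF'c]
      intro y hy z hz hyz
      have g1 := hF0 y (hF'F y hy).1
      have g2 := hF0 z (hF'F z hz).1
      have g3 : y.toNat = z.toNat := Nat.eq_of_mul_eq_mul_left hw0 hyz
      omega
    have hAm : A ∈ AA := by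
      rw [hAA, mem_powersetCard]
      refine ⟨fun a ha => ?_, hAc⟩
      obtain ⟨y, hy, rfl⟩ := mem_image.1 ha
      have g1 := hF0 y (hF'F y hy).1
      exact mem_image.2 ⟨y.toNat, by rw [Finset.mem_range]; omega, rfl⟩
    have hloc : LocallyPossible A N := by
      apply loc_of N hN2 A hAc.le
      · intro a ha
        obtain ⟨y, hy, rfl⟩ := mem_image.1 ha
        exact Dvd.intro _ rfl
      · intro a ha b hb l hl hlK
        obtain ⟨y, hy, rfl⟩ := mem_image.1 ha
        obtain ⟨z, hz, rfl⟩ := mem_image.1 hb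
        have g1 := hF'F y hy
        have g2 := hF'F z hz
        have g3 : (L : ℤ) ∣ y - z := Int.ModEq.dvd (show z % L = y % L by rw [g1.2, g2.2])
        have g4 : (l : ℤ) ∣ (L : ℤ) := by exact_mod_cast Nat.dvd_factorial hl.pos hlK
        have g5 := (g4.trans g3).mul_left (w : ℤ)
        have e : ((w * y.toNat : ℕ) : ℤ) - ((w * z.toNat : ℕ) : ℤ) = w * (y - z) := by
          rw [Nat.cast_mul, Nat.cast_mul, Int.toNat_of_nonneg (hF0 y g1.1).1,
            Int.toNat_of_nonneg (hF0 z g2.1).1]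
          ring
        rw [e]
        exact g5
    have hnex := hcon A hAm
    unfold exceptions at hnex
    rw [Set.mem_ofPred_eq] at hnex
    push Not at hnex
    obtain ⟨H', hH'1, hH'2, hH'3⟩ := hnex hN1 hloc
    have hmem : ∀ i, H'.orderEmbOfFin hH'2 i ∈ H' := fun i => H'.orderEmbOfFin_mem hH'2 i
    have hform : ∀ a ∈ H', ∃ y ∈ F, a = w * y.toNat ∧ ((a / w : ℕ) : ℤ) = y := by
      intro a ha
      obtain ⟨y, hy, hya⟩ := mem_image.1 (hH'1 ha)
      refine ⟨y, (hF'F y hy).1, hya.symm, ?_⟩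
      rw [← hya, Nat.mul_div_cancel_left _ hw0, Int.toNat_of_nonneg (hF0 y (hF'F y hy).1).1]
    have hwa : ∀ a ∈ H', w * (a / w) = a := by
      intro a ha
      obtain ⟨y, _, g1, _⟩ := hform a ha
      rw [g1, Nat.mul_div_cancel_left _ hw0]
    refine ⟨fun i => ((H'.orderEmbOfFin hH'2 i / w : ℕ) : ℤ), ?_, ?_, ?_⟩
    · intro i j hij
      show ((H'.orderEmbOfFin hH'2 i / w : ℕ) : ℤ) < ((H'.orderEmbOfFin hH'2 j / w : ℕ) : ℤ)
      have g1 : H'.orderEmbOfFin hH'2 i < H'.orderEmbOfFin hH'2 j :=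
        (H'.orderEmbOfFin hH'2).strictMono hij
      have g2 := hwa _ (hmem i)
      have g3 := hwa _ (hmem j)
      have g4 : w * (H'.orderEmbOfFin hH'2 i / w) < w * (H'.orderEmbOfFin hH'2 j / w) := by
        rw [g2, g3]
        exact g1
      exact_mod_cast lt_of_mul_lt_mul_left g4 (Nat.zero_le _)
    · intro i
      obtain ⟨y, g1, _, g3⟩ := hform _ (hmem i)
      simp only
      rw [g3]
      exact g1
    · have hD : Df A ≤ AA.sup Df := Finset.le_sup hAm
      have g1 : (x : ℝ) / Real.log x ^ (AA.sup Df) ≤ (count H' N x : ℝ) := by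
        refine le_trans ?_ hH'3
        apply div_le_div_of_nonneg_left (Nat.cast_nonneg _) (by positivity)
        exact pow_le_pow_right₀ hlogx hD
      have g2 := many_of (k := k + 2) hw0 N H' hH'2 (fun a ha => ⟨a / w, (hwa a ha).symm⟩) (fun a ha => by
        obtain ⟨y, g3, g4, _⟩ := hform a ha
        have g5 := hF0 y g3
        rw [g4]
        have : y.toNat ≤ H := by omega
        exact (Nat.mul_le_mul_left w this).trans hxH) g1 (by omega)
      have e0 : (0 : Fin (k + 2)) = ⟨0, by omega⟩ := rfl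
      convert g2 using 2
      · rename_i j
        rw [Int.toNat_natCast, hwa _ (hmem 0)]
        rfl
      · rename_i i
        have g6 := hwa _ (hmem i)
        have g7 := hwa _ (hmem 0)
        rw [mul_sub]
        have g8 : (w : ℤ) * ((H'.orderEmbOfFin hH'2 i / w : ℕ) : ℤ) =
            ((H'.orderEmbOfFin hH'2 i : ℕ) : ℤ) := by exact_mod_cast g6
        have g9 : (w : ℤ) * ((H'.orderEmbOfFin hH'2 0 / w : ℕ) : ℤ) =
            ((H'.orderEmbOfFin hH'2 0 : ℕ) : ℤ) := by exact_mod_cast g7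
        rw [g8, g9]
        rfl
  have hfin : ∀ A : Finset ℕ, (exceptions A (k + 2) r (Df A) c x : Set (Fin r → ℕ)).Finite := by
    intro A
    apply (Set.Finite.pi' (fun _ : Fin r => Set.finite_Iic (c * x))).subset
    rintro N ⟨hN, -⟩ j
    exact (hN j).2
  have h2 : (BadG r k w H (AA.sup Df) (L * K) c x).ncard ≤
      (⋃ A ∈ AA, exceptions A (k + 2) r (Df A) c x : Set (Fin r → ℕ)).ncard :=
    Set.ncard_le_ncard hsub (Set.Finite.biUnion (finite_toSet AA) fun A _ => hfin A)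
  have h3 : (⋃ A ∈ AA, exceptions A (k + 2) r (Df A) c x : Set (Fin r → ℕ)).ncard ≤
      ∑ A ∈ AA, (exceptions A (k + 2) r (Df A) c x : Set (Fin r → ℕ)).ncard :=
    Finset.set_ncard_biUnion_le AA _
  exact_mod_cast h2.trans h3

end Pool.Agent.N688.GC
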